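import Pool.Agent.Helper78.CxTsirelson

set_option autoImplicit false

open MeasureTheory Filter Topology
open scoped NNReal ENNReal

namespace Pool.Agent.Results.MP_4a5259_an.BothScalarFields

universe u

/-- The Dilworth-Girardi question has a positive answer: over either scalar field there is an
infinite-dimensional reflexive Banach space `X` such that for every finite measure space every
sequence of strongly measurable `X`-valued functions which is bounded in `L^1` and converges
scalarly in measure to `0` has a subsequence converging scalarly almost everywhere to `0`. -/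
theorem result (𝕜 : Type) [RCLike 𝕜] :
    ∃ (X : Type) (_ : NormedAddCommGroup X) (_ : NormedSpace 𝕜 X),
      CompleteSpace X ∧
      ¬ FiniteDimensional 𝕜 X ∧
      Function.Surjective (NormedSpace.inclusionInDoubleDual 𝕜 X) ∧
      ∀ (Ω : Type u) [MeasurableSpace Ω] (μ : Measure Ω) [IsFiniteMeasure μ] (f : ℕ → Ω → X),
        (∀ n, AEStronglyMeasurable (f n) μ) →
        (∃ C : ℝ≥0, ∀ n, ∫⁻ ω, ‖f n ω‖ₑ ∂μ ≤ C) →
        (∀ φ : StrongDual 𝕜 X,
          TendstoInMeasure μ (fun n ω => φ (f n ω)) atTop (fun _ => (0 : 𝕜))) →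
        ∃ g : ℕ → ℕ, StrictMono g ∧
          ∀ φ : StrongDual 𝕜 X, ∀ᵐ ω ∂μ, Tendsto (fun k => φ (f (g k) ω)) atTop (𝓝 0) := by
  refine ⟨Helper78.CxTsirelson.XX 𝕜, inferInstance, inferInstance, inferInstance,
    Helper78.CxTsirelson.not_finiteDimensional 𝕜, Helper78.CxTsirelson.reflexive 𝕜, ?_⟩
  rintro Ω _ μ _ f hf ⟨C, hC⟩ hmeas
  exact Helper78.CxTsirelson.D1 𝕜 μ f hf C
    (fun n => by rw [eLpNorm_one_eq_lintegral_enorm]; exact hC n) hmeas

end Pool.Agent.Results.MP_4a5259_an.BothScalarFields
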